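import Pool.Agent.Q107.IS.Main

/-!
# An infinite-length interval-splitting strategy which beats `2 - 3 / (2 n)`

There is an infinite-length strategy `S` such that for every `c < 3 log 2 = 2.079...` and every `C`
one has `disc_n(S) < 2 - c / n - C / n ^ 2` for `n = 2 ^ J - 1` and all large `J`. In particular
(`c = 3 / 2`) no constant `C` satisfies `disc_n(S) ≥ 2 - 3 / (2 n) - C / n ^ 2` for all `n`.
-/

namespace Pool.Agent.Results.MP_32269d_co.GeometricSplitting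

/-- `L` is the list of the lengths, from left to right, of the intervals of a partition of `[0,1]`
into `i` intervals of positive length -/
structure IsPartition (i : ℕ) (L : List ℝ) : Prop where
  card : L.length = i
  pos : ∀ x ∈ L, 0 < x
  sum : L.sum = 1

/-- the partition `L'` arises from the partition `L` by cutting one of its intervals into two -/
def Cut (L L' : List ℝ) : Prop :=
  ∃ (l r : List ℝ) (x y z : ℝ), 0 < y ∧ 0 < z ∧ x = y + z ∧ L = l ++ x :: r ∧ L' = l ++ y :: z :: r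

/-- an infinite-length strategy; only the values `S i` with `i ≥ 1` matter -/
structure IsStrategy (S : ℕ → List ℝ) : Prop where
  part : ∀ i, 1 ≤ i → IsPartition i (S i)
  cut : ∀ i, 1 ≤ i → Cut (S i) (S (i + 1))

/-- the largest quotient of two lengths of the partition -/
noncomputable def disc (L : List ℝ) : ℝ := sSup {x : ℝ | ∃ a ∈ L, ∃ b ∈ L, x = a / b}

/-- `disc_n(S)`, the maximum of `disc (S t)` over `1 ≤ t ≤ n` -/
noncomputable def discUpTo (S : ℕ → List ℝ) (n : ℕ) : ℝ :=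
  sSup {x : ℝ | ∃ t, 1 ≤ t ∧ t ≤ n ∧ x = disc (S t)}

theorem result : ∃ S : ℕ → List ℝ, IsStrategy S ∧
    (∀ C : ℝ, ∃ n : ℕ, 1 ≤ n ∧ discUpTo S n < 2 - 3 / (2 * (n : ℝ)) - C / (n : ℝ) ^ 2) ∧
    ∀ c C : ℝ, c < 3 * Real.log 2 → ∃ J₀ : ℕ, ∀ J : ℕ, J₀ ≤ J →
      discUpTo S (2 ^ J - 1) < 2 - c / ((2 ^ J - 1 : ℕ) : ℝ) - C / ((2 ^ J - 1 : ℕ) : ℝ) ^ 2 := by
  have hcut : ∀ i, 1 ≤ i → Cut (Q107.IS.lengths i) (Q107.IS.lengths (i + 1)) := by
    intro i hi
    obtain ⟨l, r, h1, h2⟩ := Q107.IS.lengths_succ hi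
    exact ⟨l, r, _, _, _, Q107.IS.s_pos _, Q107.IS.s_pos _, Q107.IS.s_split hi, h1, h2⟩
  have hpart : ∀ i, 1 ≤ i → IsPartition i (Q107.IS.lengths i) := by
    intro i hi
    induction i, hi using Nat.le_induction with
    | base =>
      rw [Q107.IS.lengths_one]
      exact ⟨rfl, by simp, by simp⟩
    | succ i hi ih =>
      obtain ⟨l, r, x, y, z, hy, hz, hx, h1, h2⟩ := hcut i hi
      obtain ⟨g1, g2, g3⟩ := ih
      rw [h1] at g1 g2 g3
      rw [h2]
      refine ⟨?_, ?_, ?_⟩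
      · simp only [List.length_append, List.length_cons] at g1 ⊢
        omega
      · intro w hw
        simp only [List.mem_append, List.mem_cons] at hw g2
        rcases hw with hw | rfl | rfl | hw
        · exact g2 w (Or.inl hw)
        · exact hy
        · exact hz
        · exact g2 w (Or.inr (Or.inr hw))
      · simp only [List.sum_append, List.sum_cons] at g3 ⊢
        rw [hx] at g3
        linarith
  have hle : ∀ J : ℕ, 1 ≤ J →
      discUpTo Q107.IS.lengths (2 ^ J - 1) ≤ Q107.IS.q J + Q107.IS.q J ^ 2 := by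
    intro J hJ
    have h2 : 2 ≤ 2 ^ J := by
      calc 2 = 2 ^ 1 := rfl
        _ ≤ 2 ^ J := Nat.pow_le_pow_right (by norm_num) hJ
    refine csSup_le ⟨_, 1, le_rfl, by omega, rfl⟩ ?_
    rintro x ⟨t, ht1, ht2, rfl⟩
    have hne : ∃ a, a ∈ Q107.IS.lengths t := by
      have := (hpart t ht1).card
      exact List.exists_mem_of_length_pos (by omega)
    obtain ⟨a, ha⟩ := hne
    refine csSup_le ⟨_, a, ha, a, ha, rfl⟩ ?_
    rintro x ⟨b, hb, c, hc, rfl⟩
    exact Q107.IS.ratio_le ht1 (by omega) hb hc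
  have hmain : ∀ c C : ℝ, c < 3 * Real.log 2 → ∃ J₀ : ℕ, ∀ J : ℕ, J₀ ≤ J →
      discUpTo Q107.IS.lengths (2 ^ J - 1) <
        2 - c / ((2 ^ J - 1 : ℕ) : ℝ) - C / ((2 ^ J - 1 : ℕ) : ℝ) ^ 2 := by
    intro c C hc
    obtain ⟨J₀, hJ₀⟩ := Q107.IS.eventually_lt c C hc
    exact ⟨J₀ + 1, fun J hJ => (hle J (by omega)).trans_lt (hJ₀ J (by omega))⟩
  refine ⟨Q107.IS.lengths, ⟨hpart, hcut⟩, ?_, hmain⟩
  intro C
  obtain ⟨J₀, hJ₀⟩ := hmain (3 / 2) C (by
    have := Real.log_two_gt_d9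
    linarith)
  refine ⟨2 ^ (J₀ + 1) - 1, ?_, ?_⟩
  · have : 2 ≤ 2 ^ (J₀ + 1) := by
      calc 2 = 2 ^ 1 := rfl
        _ ≤ 2 ^ (J₀ + 1) := Nat.pow_le_pow_right (by norm_num) (by omega)
    omega
  · have h := hJ₀ (J₀ + 1) (by omega)
    have e : 3 / (2 * ((2 ^ (J₀ + 1) - 1 : ℕ) : ℝ)) = 3 / 2 / ((2 ^ (J₀ + 1) - 1 : ℕ) : ℝ) := by
      rw [div_div]
    rw [e]
    exact h

end Pool.Agent.Results.MP_32269d_co.GeometricSplitting
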